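import Mathlib
import Pool.Agent.L7h47.DF.Stm

set_option autoImplicit false

namespace Pool.Agent.L7h30.DF
open Pool.Agent.L7h47.DF

theorem s_EXC (hPAR : S_PAR) (hFROB : S_FROB) (hSSQ : S_SSQ) (hSHF : S_SHF) (hITR : S_ITR)
    (hQUO : S_QUO) (hCHR : S_CHR) : S_EXC := by
  intro lam k p u hlam hlk hS hns hp hlp hpk hu hu2 hlu hdiv hnsq
  obtain ⟨G, iG, iF, iD, D, hD⟩ := hS
  have : Fact u.Prime := ⟨hu⟩
  have hpar := hPAR G k lam D hD
  have hv : 0 < Fintype.card G := Fintype.card_pos_iff.mpr ⟨0⟩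
  obtain ⟨w, hw⟩ : ∃ w, Fintype.card G = w + 1 := ⟨Fintype.card G - 1, by omega⟩
  have hkk : k ≤ k * k := Nat.le_mul_self k
  have hlv : lam * Fintype.card G = k * k - k + lam := by
    rw [hw] at hpar ⊢
    rw [Nat.add_sub_cancel] at hpar
    rw [hpar, Nat.add_sub_cancel_left, mul_add, mul_one]
  have huv : u ∣ Fintype.card G := by
    have h1 : u ∣ lam * Fintype.card G := by rw [hlv]; exact hdiv
    rcases hu.dvd_mul.mp h1 with h | h
    · exact absurd (Nat.le_of_dvd hlam h) (by omega)
    · exact h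
  have hpl : ¬ p ∣ lam := fun h => absurd (Nat.le_of_dvd hlam h) (by omega)
  have hcop : (Fintype.card G).Coprime p := by
    rw [Nat.coprime_comm, hp.coprime_iff_not_dvd]
    intro h
    have h1 : p ∣ k * k - k + lam := by rw [← hlv]; exact Dvd.dvd.mul_left h _
    obtain ⟨m, hm⟩ := hpk
    have hk : k = p * m + lam := by omega
    have h2 : p ∣ lam * lam := by
      have e : k * k - k + lam = p * m * (p * m + 2 * lam - 1) + lam * lam := by
        have e0 : k * k - k = k * (k - 1) := by rw [Nat.mul_sub, mul_one]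
        obtain ⟨l', rfl⟩ : ∃ l', lam = l' + 1 := ⟨lam - 1, by omega⟩
        rw [e0, hk]
        have e1 : p * m + (l' + 1) - 1 = p * m + l' := by omega
        have e2 : p * m + 2 * (l' + 1) - 1 = p * m + 2 * l' + 1 := by omega
        rw [e1, e2]
        ring
      rw [e] at h1
      exact (Nat.dvd_add_right ⟨m * (p * m + 2 * lam - 1), by ring⟩).mp h1
    rcases hp.dvd_mul.mp h2 with h | h <;> exact hpl h
  have hfrob := hFROB G k lam D hD p hp hlam hlp hlk hpk
  obtain ⟨g0, hg0⟩ := hSSQ G k lam D hD p hp hlp hlk hcop hfrob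
  have hshf := hSHF G k lam D hD p hlk g0 hg0
  obtain ⟨g1, hg1⟩ := hITR G D p g0 hshf (u / 2)
  obtain ⟨f, hf⟩ := hQUO G u hu huv
  have hp0 : (p : ZMod u) ≠ 0 := by
    intro h
    apply hnsq
    rw [h]
    exact ⟨0, by simp⟩
  have hpj : (p : ZMod u) ^ (u / 2) = -1 := by
    rcases ZMod.pow_div_two_eq_neg_one_or_one u hp0 with h | h
    · exact absurd ((ZMod.euler_criterion u hp0).mpr h) hnsq
    · exact h
  have hinj : Function.Injective (fun d : G => p ^ (u / 2) • d) := by
    have hc : (Nat.card G).Coprime (p ^ (u / 2)) := by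
      rw [Nat.card_eq_fintype_card]; exact hcop.pow_right _
    intro a b hab
    have hab' : p ^ (u / 2) • (a - b) = 0 := by
      have : p ^ (u / 2) • a = p ^ (u / 2) • b := hab
      rw [smul_sub, this, sub_self]
    have h1 : addOrderOf (a - b) ∣ p ^ (u / 2) := addOrderOf_dvd_iff_nsmul_eq_zero.mpr hab'
    have h2 : addOrderOf (a - b) ∣ Nat.card G := addOrderOf_dvd_natCard _
    have h3 : addOrderOf (a - b) = 1 := Nat.eq_one_of_dvd_coprimes hc h2 h1
    exact sub_eq_zero.mp (AddMonoid.addOrderOf_eq_one_iff.mp h3)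
  have hfp : ∀ d : G, f (p ^ (u / 2) • d) = - f d := by
    intro d
    rw [map_nsmul, nsmul_eq_mul, Nat.cast_pow, hpj, neg_one_mul]
  have huk : u ∣ k := by
    refine hCHR G k lam D hD hlk hns u hu hu2 f hf (f g1) ?_
    intro i
    have e1 : (D.filter fun d => f d = -i).card =
        ((D.image (fun d => p ^ (u / 2) • d)).filter fun e => f e = i).card := by
      rw [Finset.filter_image, Finset.card_image_of_injective _ hinj]
      congr 1
      apply Finset.filter_congr
      intro d _
      rw [hfp d, neg_eq_iff_eq_neg]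
    have e2 : (D.filter fun d => f d + f g1 = i).card =
        ((D.image (fun d => d + g1)).filter fun e => f e = i).card := by
      rw [Finset.filter_image, Finset.card_image_of_injective _ (add_left_injective g1)]
      congr 1
      apply Finset.filter_congr
      intro d _
      rw [map_add]
    rw [e1, e2, hg1]
  have h1 : u ∣ k * k - k := by
    obtain ⟨m, hm⟩ := huk
    refine Nat.dvd_sub ?_ ⟨m, hm⟩
    exact Dvd.dvd.mul_left ⟨m, hm⟩ _
  have h2 : u ∣ lam := (Nat.dvd_add_right h1).mp hdiv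
  exact absurd (Nat.le_of_dvd hlam h2) (by omega)

end Pool.Agent.L7h30.DF
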